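import Pool.Agent.Run7.h609.HT.Iface

/-! Piece EXT of the project HT (helper609): finite partial injections extend to finitary
permutations. -/

set_option autoImplicit false

open Function

namespace Run7.h631.HT

open Pool.Agent.Run7.h609.HT

theorem t_EXT : S_EXT := by
  classical
  intro X k
  induction k with
  | zero => intro x y _ _; exact ⟨1, by simp, fun i => i.elim0⟩
  | succ k ih =>
    intro x y hx hy
    obtain ⟨σ, hσ, hs⟩ := ih (fun i => x i.castSucc) (fun i => y i.castSucc)
      (fun i j h => Fin.castSucc_injective k (hx h)) (fun i j h => Fin.castSucc_injective k (hy h))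
    refine ⟨Equiv.swap (σ (x (Fin.last k))) (y (Fin.last k)) * σ, ?_, ?_⟩
    · refine (hσ.union (Set.toFinite {σ (x (Fin.last k)), y (Fin.last k)})).subset ?_
      intro c hc
      by_contra h
      simp only [Set.mem_union, Set.mem_ofPred_eq, Set.mem_insert_iff, Set.mem_singleton_iff,
        not_or, not_not] at h
      apply hc
      rw [Equiv.Perm.mul_apply, h.1, Equiv.swap_apply_of_ne_of_ne h.2.1 h.2.2]
    · intro i
      rw [Equiv.Perm.mul_apply]
      induction i using Fin.lastCases with
      | last => exact Equiv.swap_apply_left _ _
      | cast i =>
        have h1 : σ (x i.castSucc) = y i.castSucc := hs i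
        rw [h1]
        apply Equiv.swap_apply_of_ne_of_ne
        · rw [← h1]
          intro h
          have := hx (σ.injective h)
          exact absurd this (Fin.castSucc_lt_last i).ne
        · intro h
          exact absurd (hy h) (Fin.castSucc_lt_last i).ne

end Run7.h631.HT
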