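import Pool.Agent.Run7.h609.HT.Iface

/-! Piece QIS of the project HT (helper609): a surjective homomorphism with finite kernel is a
quasi-isometry. -/

set_option autoImplicit false

open Function

namespace Run7.h631.HT

open Pool.Agent.Run7.h609.HT

variable {G H : Type} [Group G] [Group H]

theorem wl_le (S : Set G) (l : List G) (hl : ∀ x ∈ l, x ∈ S ∨ x⁻¹ ∈ S) :
    wl S l.prod ≤ l.length := Nat.sInf_le ⟨l, rfl, hl, rfl⟩

theorem wl_spec (S : Set G) (hS : Subgroup.closure S = ⊤) (g : G) :
    ∃ l : List G, l.length = wl S g ∧ (∀ x ∈ l, x ∈ S ∨ x⁻¹ ∈ S) ∧ l.prod = g := by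
  have hg : g ∈ (Subgroup.closure S).toSubmonoid := by rw [hS]; trivial
  rw [Subgroup.closure_toSubmonoid] at hg
  obtain ⟨l, hl', hp⟩ := Submonoid.exists_list_of_mem_closure hg
  have hl : ∀ x ∈ l, x ∈ S ∨ x⁻¹ ∈ S := fun x hx => by
    rcases hl' x hx with h | h
    · exact Or.inl h
    · exact Or.inr h
  exact Nat.sInf_mem (s := {n : ℕ | ∃ l : List G, l.length = n ∧
    (∀ x ∈ l, x ∈ S ∨ x⁻¹ ∈ S) ∧ l.prod = g}) ⟨l.length, l, rfl, hl, hp⟩

theorem wl_mul (S : Set G) (hS : Subgroup.closure S = ⊤) (g g' : G) :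
    wl S (g * g') ≤ wl S g + wl S g' := by
  obtain ⟨l, h1, h2, h3⟩ := wl_spec S hS g
  obtain ⟨l', h1', h2', h3'⟩ := wl_spec S hS g'
  have h := wl_le S (l ++ l') (by
    intro x hx
    rcases List.mem_append.1 hx with h | h
    · exact h2 x h
    · exact h2' x h)
  rwa [List.prod_append, h3, h3', List.length_append, h1, h1'] at h

theorem wl_inv (S : Set G) (hS : Subgroup.closure S = ⊤) (g : G) :
    wl S g⁻¹ ≤ wl S g := by
  obtain ⟨l, h1, h2, h3⟩ := wl_spec S hS g
  have h := wl_le S (l.map (fun x => x⁻¹)).reverse (by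
    intro x hx
    rw [List.mem_reverse, List.mem_map] at hx
    obtain ⟨y, hy, rfl⟩ := hx
    rcases h2 y hy with h | h
    · right; rwa [inv_inv]
    · left; exact h)
  rwa [← List.prod_inv_reverse, h3, List.length_reverse, List.length_map, h1] at h

theorem wl_one (S : Set G) : wl S 1 = 0 := by
  have h := wl_le S [] (by simp)
  simpa using h

omit [Group G] in
theorem wl_map (T : Set H) (hT : Subgroup.closure T = ⊤) (f : G → H) (A : ℕ) (l : List G)
    (hl : ∀ x ∈ l, wl T (f x) ≤ A) : wl T (l.map f).prod ≤ A * l.length := by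
  induction l with
  | nil => simp [wl_one]
  | cons a l ih =>
    rw [List.map_cons, List.prod_cons, List.length_cons]
    have h1 := wl_mul T hT (f a) (l.map f).prod
    have h2 := hl a (by simp)
    have h3 := ih (fun x hx => hl x (by simp [hx]))
    rw [mul_add, mul_one]
    omega

theorem t_QIS : S_QIS := by
  classical
  intro G H _ _ p hp hker S T hS hT
  obtain ⟨r, hr⟩ : ∃ r : H → G, ∀ h, p (r h) = h := ⟨Function.surjInv hp, Function.surjInv_eq hp⟩
  obtain ⟨B, hB⟩ : ∃ B : ℕ, ∀ k : p.ker, wl (S : Set G) (k : G) ≤ B := by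
    obtain ⟨B, hB⟩ := (Set.finite_range (fun k : p.ker => wl (S : Set G) (k : G))).bddAbove
    exact ⟨B, fun k => hB ⟨k, rfl⟩⟩
  set A1 : ℕ := S.sup (fun s => wl (T : Set H) (p s)) with hA1
  set A2 : ℕ := T.sup (fun t => wl (S : Set G) (r t)) with hA2
  have h1 : ∀ g : G, wl (T : Set H) (p g) ≤ A1 * wl (S : Set G) g := by
    intro g
    obtain ⟨l, hl1, hl2, hl3⟩ := wl_spec (S : Set G) hS g
    have h := wl_map (T : Set H) hT p A1 l (by
      intro x hx
      rcases hl2 x hx with h | h
      · exact Finset.le_sup (f := fun s => wl (T : Set H) (p s)) (Finset.mem_coe.1 h)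
      · have h3 := wl_inv (T : Set H) hT (p x⁻¹)
        rw [map_inv, inv_inv] at h3
        have h4 := Finset.le_sup (f := fun s => wl (T : Set H) (p s)) (Finset.mem_coe.1 h)
        simp only [map_inv] at h4
        exact h3.trans h4)
    rwa [← map_list_prod, hl3, hl1] at h
  have h2 : ∀ g : G, wl (S : Set G) g ≤ A2 * wl (T : Set H) (p g) + B := by
    intro g
    obtain ⟨l, hl1, hl2, hl3⟩ := wl_spec (T : Set H) hT (p g)
    set φ : H → G := fun x => if x ∈ T then r x else (r x⁻¹)⁻¹ with hφ
    have hφp : ∀ x, p (φ x) = x := by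
      intro x
      simp only [hφ]
      split_ifs
      · exact hr x
      · rw [map_inv, hr, inv_inv]
    have h := wl_map (S : Set G) hS φ A2 l (by
      intro x hx
      by_cases hxT : x ∈ T
      · simp only [hφ, if_pos hxT]
        exact Finset.le_sup (f := fun t => wl (S : Set G) (r t)) hxT
      · have hx' : x⁻¹ ∈ T := by
          rcases hl2 x hx with h | h
          · exact absurd (Finset.mem_coe.1 h) hxT
          · exact Finset.mem_coe.1 h
        simp only [hφ, if_neg hxT]
        exact (wl_inv (S : Set G) hS _).trans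
          (Finset.le_sup (f := fun t => wl (S : Set G) (r t)) hx'))
    set g' : G := (l.map φ).prod with hg'
    have hpg' : p g' = p g := by
      rw [hg', map_list_prod, List.map_map, ← hl3]
      congr 1
      have : (⇑p ∘ φ) = id := funext hφp
      rw [this, List.map_id]
    have hk : g'⁻¹ * g ∈ p.ker := by
      rw [MonoidHom.mem_ker, map_mul, map_inv, hpg', inv_mul_cancel]
    have h3 := wl_mul (S : Set G) hS g' (g'⁻¹ * g)
    rw [mul_inv_cancel_left] at h3
    have h4 := hB ⟨_, hk⟩
    rw [hl1] at h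
    simp only at h4
    omega
  refine ⟨p, A1 + A2, B, ?_, ?_, ?_⟩
  · intro g g'
    have h := h1 (g⁻¹ * g')
    rw [map_mul, map_inv] at h
    have h3 : A1 * wl (S : Set G) (g⁻¹ * g') ≤ (A1 + A2) * wl (S : Set G) (g⁻¹ * g') :=
      Nat.mul_le_mul_right _ (Nat.le_add_right _ _)
    omega
  · intro g g'
    have h := h2 (g⁻¹ * g')
    rw [map_mul, map_inv] at h
    have h3 : A2 * wl (T : Set H) ((p g)⁻¹ * p g') ≤
        (A1 + A2) * wl (T : Set H) ((p g)⁻¹ * p g') :=
      Nat.mul_le_mul_right _ (Nat.le_add_left _ _)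
    omega
  · intro h
    refine ⟨r h, ?_⟩
    rw [hr, inv_mul_cancel, wl_one]
    exact Nat.zero_le _

end Run7.h631.HT
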