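import Pool.Agent.Run7.h609.HT.Iface

/-! Piece TRA of the project HT (helper609): subgroups of finite index of a faithful 2-transitive
group of permutations of an infinite set have no centre. -/

set_option autoImplicit false

open Function

namespace Run7.h631.HT

open Pool.Agent.Run7.h609.HT

theorem t_TRA : S_TRA := by
  intro L Ω _ _ hinf hfaith h2 L' hfi z hz hcen
  by_contra hz1
  have hex : ∃ ω : Ω, z • ω ≠ ω := by
    by_contra hc
    push Not at hc
    apply hz1
    apply hfaith.eq_of_smul_eq_smul
    intro a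
    rw [hc a, one_smul]
  obtain ⟨ω, hω⟩ := hex
  have hfin : Finite ((MulAction.stabilizer L ω) ⧸ (L'.subgroupOf (MulAction.stabilizer L ω))) := by
    have := hfi
    infer_instance
  have hcov : (Set.univ : Set Ω) ⊆ {ω} ∪ Set.range
      (fun q : (MulAction.stabilizer L ω) ⧸ (L'.subgroupOf (MulAction.stabilizer L ω)) =>
        ((q.out : MulAction.stabilizer L ω) : L) • (z • ω)) := by
    intro c _
    by_cases hc : c = ω
    · left; exact hc
    right
    obtain ⟨g, hg1, hg2⟩ := h2 ω (z • ω) ω c (Ne.symm hω) (Ne.symm hc)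
    have hgs : g ∈ MulAction.stabilizer L ω := hg1
    refine ⟨((⟨g, hgs⟩ : MulAction.stabilizer L ω) :
      (MulAction.stabilizer L ω) ⧸ (L'.subgroupOf (MulAction.stabilizer L ω))), ?_⟩
    obtain ⟨h, hh⟩ := QuotientGroup.mk_out_eq_mul (L'.subgroupOf (MulAction.stabilizer L ω))
      (⟨g, hgs⟩ : MulAction.stabilizer L ω)
    show ((Quotient.out ((⟨g, hgs⟩ : MulAction.stabilizer L ω) :
      (MulAction.stabilizer L ω) ⧸ (L'.subgroupOf (MulAction.stabilizer L ω))) :
        MulAction.stabilizer L ω) : L) • (z • ω) = c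
    rw [hh]
    have hhL : ((h : MulAction.stabilizer L ω) : L) ∈ L' := Subgroup.mem_subgroupOf.1 h.2
    have hhs : ((h : MulAction.stabilizer L ω) : L) • ω = ω := (h : MulAction.stabilizer L ω).2
    rw [Subgroup.coe_mul, mul_smul, smul_smul _ z ω, hcen _ hhL, mul_smul z, hhs]
    exact hg2
  have : (Set.univ : Set Ω).Finite :=
    ((Set.finite_singleton ω).union (Set.finite_range _)).subset hcov
  exact Set.infinite_univ this

end Run7.h631.HT
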